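import Pool.Agent.W282.LF.Count
import Pool.Agent.W466.CI

/-!
Project LF (helper282): the bound for points on special subvarieties.
-/

open MvPolynomial Function

namespace Pool.Agent.W282.LF

open WeierstrassCurve WeierstrassCurve.Affine Pool.Agent.W466.EP Pool.Agent.W466.ZC

/-- The point `(t, P)` lies on a special subvariety of codimension `c` of the fibre power. -/
inductive EData {n : ℕ} (t : ℂ) (P : Fin n → (leg t).Point) : ℕ → Prop
  | gen (M : Submodule ℤ (Fin n → ℤ))
      (h : ∀ r ∈ M, ∃ T : ℕ, 0 < T ∧ T • ∑ i, r i • P i = 0) : EData t P (Module.finrank ℤ M)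
  | fib (hj : IsIntegral ℤ (jinv t)) (M : Submodule ℤ (Fin n → ℤ))
      (h : ∀ r ∈ M, ∃ T : ℕ, 0 < T ∧ T • ∑ i, r i • P i = 0) : EData t P (1 + Module.finrank ℤ M)
  | cm (φ : CMLeg t) (M : Submodule ℤ (Fin n → ℤ × ℤ))
      (h : ∀ r ∈ M, ∃ T : ℕ, 0 < T ∧ T • ∑ i, ((r i).1 • P i + (r i).2 • φ.φ (P i)) = 0) :
      EData t P (1 + (Module.finrank ℤ M + 1) / 2)

theorem mainLK (hISO : S_ISO) (hTR : S_TR) (hCMR : S_CMR) (K : Subfield ℂ) {κ : Type*}
    {N n q m : ℕ} (G : κ → MvPolynomial (Fin (N + 1)) K)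
    (hG : ∀ i, ∃ e, (G i).IsHomogeneous e)
    (a b : Option (Fin n) ⊕ Fin q → MvPolynomial (Fin (N + 1)) K)
    (db : Option (Fin n) ⊕ Fin q → ℕ) (hb : ∀ i, (b i).IsHomogeneous (db i))
    (ha0 : (a (Sum.inl none)).IsHomogeneous (db (Sum.inl none)))
    (haE : ∀ i, (a (Sum.inl (some i))).IsHomogeneous
      (db (Sum.inl none) + db (Sum.inl (some i))))
    (haT : ∀ j, (a (Sum.inr j)).IsHomogeneous (db (Sum.inr j)))
    (hdis : ∀ I : Finset ((Option (Fin n) ⊕ Fin q) ⊕ Fin (N + 1)), I.card = m + 1 →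
      ∀ y : Fin (N + 1) → ℂ, (∀ i, aeval y (G i) = 0) →
      (∀ i ∈ I, Sum.elim (fun s => aeval y (a s) * aeval y (b s)) y i = 0) → y = 0)
    (Γ : Finset ℂ) (hΓ : ∀ γ ∈ Γ, γ ∈ K) :
    ∃ D : ℕ, ∀ β : ℕ, 0 < β → ∀ (Nn : Option (Fin n) → ℕ) (d : Fin q → ℕ),
      SpreadL n q D β Nn d → ∀ c : Option (Fin n) → ℂ, (∀ i, c i ^ β = (Nn i : ℂ)) →
      ∀ (t : ℂ) (_ : t ≠ 0) (_ : t ≠ 1) (P : Fin n → (leg t).Point) (u : Fin q → ℂ)
        (y : Fin (N + 1) → ℂ) (_ : Over G a b c d t P u y) (cE : ℕ) (_ : EData t P cE)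
        (M₂ : Submodule ℤ (Fin q → ℤ))
        (_ : ∀ r ∈ M₂, ∀ V : ValuationSubring ℂ, (∀ γ ∈ Γ, γ ∈ V) →
          V.valuation (∏ j, u j ^ r j) = 1)
        (S : Finset (Option (Fin n) ⊕ Fin q)) (_ : AlgebraicIndependent K fun s : S => co t P u s),
        S.card + cE + Module.finrank ℤ M₂ ≤ m := by
  classical
  let k := algebraicClosure K ℂ
  have hcl : IsAlgClosure K k := inferInstance
  have hac : IsAlgClosed k := hcl.isAlgClosed
  have hmap : ∀ (y : Fin (N + 1) → ℂ) (P : MvPolynomial (Fin (N + 1)) K),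
      aeval y (MvPolynomial.map (algebraMap K k) P) = aeval y P := fun y P =>
    MvPolynomial.aeval_map_algebraMap k y P
  let Γ' : Γ → k := fun γ => algebraMap K k ⟨γ, hΓ γ γ.2⟩
  obtain ⟨D, hD3, hD⟩ := mainT (k := k) (m := m) hTR
    (fun i => MvPolynomial.map (algebraMap K k) (G i))
    (fun i => by
      obtain ⟨e, he⟩ := hG i
      exact ⟨e, he.map _⟩)
    (fun i => MvPolynomial.map (algebraMap K k) (a i))
    (fun i => MvPolynomial.map (algebraMap K k) (b i)) db
    (fun i => (hb i).map _) (ha0.map _) (fun i => (haE i).map _) (fun j => (haT j).map _)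
    (fun I hI y h1 h2 => hdis I hI y (fun i => by rw [← hmap]; exact h1 i)
      (fun i hi => by
        have h3 := h2 i hi
        rcases i with i | i
        · change aeval y (MvPolynomial.map (algebraMap K k) (a i)) *
            aeval y (MvPolynomial.map (algebraMap K k) (b i)) = 0 at h3
          rw [hmap, hmap] at h3
          exact h3
        · exact h3)) Γ'
  refine ⟨D, fun β hβ Nn d hsp c hc t ht0 ht1 P u y hy cE hE M₂ hM₂ S hS => ?_⟩
  refine hD β hβ Nn d hsp c hc t P u y ⟨hy.ne, fun i => (hmap y _).trans (hy.eqs i), ?_, ?_, ?_, ?_⟩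
    cE ?_ M₂ ?_ S (hS.extendScalars k)
  · rw [hmap]
    exact hy.base_ne
  · rw [hmap, hmap]
    exact hy.base
  · intro i
    rw [hmap, hmap, hmap]
    exact hy.ell i
  · intro j
    rw [hmap, hmap]
    exact hy.tor j
  · intro p V F hpp hpD he hee hPl
    have hp3 : 3 < p := by omega
    cases hE with
    | gen M h => exact (boundZ hISO hpp hp3 hβ hc he hee hPl M h).trans badE_card
    | fib hj M h =>
      have h1 := boundZ hISO hpp hp3 hβ hc he hee hPl M h
      have h2 := badE_card' (base_bad hpp hp3 hβ hc he ht0 ht1 hj hPl)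
      omega
    | cm φ M h =>
      have h1 := boundCM hCMR hpp hp3 hβ hc he hee ht0 ht1 φ hPl M h
      have h2 := badE_card' (base_bad hpp hp3 hβ hc he ht0 ht1 φ.int hPl)
      omega
  · intro r hr V hV
    refine hM₂ r hr V fun γ hγ => ?_
    exact hV ⟨γ, hγ⟩

open Pool.Agent.W282.ZP in
/-- An irreducible algebraic set of dimension `s` contains points with `s` coordinates algebraically
independent over a given countable field, outside a given hypersurface. -/
theorem generic_dim_open {n : ℕ} (K : Type) [Field K] [Countable K] [Algebra K ℂ]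
    (A : Set (Fin n → ℂ)) (hA : (idealOf A).IsPrime) (hcl : zcl A ⊆ A)
    (g : MvPolynomial (Fin n) ℂ) (hg : g ∉ idealOf A) :
    ∃ x ∈ A, eval x g ≠ 0 ∧ ∃ T : Finset (Fin n), AlgebraicIndependent K (fun j : T => x j) ∧
      zdim A ≤ (T.card : Cardinal) := by
  classical
  obtain ⟨Ω, _, _, z, hz, T, hT, hdim⟩ := generic_point (idealOf A)
  let G : Option {f : MvPolynomial T K // f ≠ 0} → MvPolynomial (Fin n) ℂ := fun f =>
    f.elim g (fun f => rename (Subtype.val : T → Fin n) (MvPolynomial.map (algebraMap K ℂ) f.1))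
  have : Countable (MvPolynomial T K) := by
    rw [← Cardinal.mk_le_aleph0_iff]
    refine MvPolynomial.cardinalMk_le_max.trans ?_
    refine max_le (max_le Cardinal.mk_le_aleph0 Cardinal.mk_le_aleph0) le_rfl
  have hG : ∀ f, G f ∉ idealOf A := by
    rintro (_ | f) hf
    · exact hg hf
    · change rename (Subtype.val : T → Fin n) (MvPolynomial.map (algebraMap K ℂ) f.1) ∈ _ at hf
      have h1 := (hz _).2 hf
      rw [aeval_rename] at h1
      have h2 : MvPolynomial.map (algebraMap K ℂ) f.1 = 0 := by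
        apply hT
        rw [map_zero]
        exact h1
      apply f.2
      have h3 : Function.Injective (MvPolynomial.map (σ := T) (algebraMap K ℂ)) :=
        MvPolynomial.map_injective _ (algebraMap K ℂ).injective
      exact h3 (by rw [h2, map_zero])
  obtain ⟨x, hx1, hx2⟩ := exists_point (idealOf A) G hG
  refine ⟨x, hcl hx1, hx2 none, T, ?_, hdim⟩
  rw [algebraicIndependent_iff]
  intro f hf
  by_contra hne
  apply hx2 (some ⟨f, hne⟩)
  show eval x (rename (Subtype.val : T → Fin n) (MvPolynomial.map (algebraMap K ℂ) f)) = 0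
  rw [eval_rename, eval_map]
  exact hf

end Pool.Agent.W282.LF
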