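import Pool.Agent.W282.LF.Elem
import Pool.Agent.W466.EK

/-!
Project LF (helper282): one-parameter families of scalings.
-/

open MvPolynomial Function

namespace Pool.Agent.W282.LF

open Pool.Agent.W466.EP Pool.Agent.W466.ZC

/-- Exponents for one-parameter families of scalings: the exponents `e l i` (for the parameter of
the Legendre curve, `i = none`, and the points) are at least `b` and for each `l` pairwise
incongruent modulo `b`, and any `q` of the vectors `a l` are linearly independent. -/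
def GoodExpL (n q b : ℕ) (e : Fin ((q - 1) * 2 ^ q + 1) → Option (Fin n) → ℕ)
    (a : Fin ((q - 1) * 2 ^ q + 1) → Fin q → ℕ) : Prop :=
  (∀ l i, b ≤ e l i) ∧ (∀ l i j, i ≠ j → ¬ e l i ≡ e l j [MOD b]) ∧
    ∀ I : Finset (Fin ((q - 1) * 2 ^ q + 1)), I.card = q → ∀ β : Fin q → ℤ,
      (∀ l ∈ I, ∑ j, β j * (a l j : ℤ) = 0) → β = 0

/-- Such exponents exist: `e l none = b`, `e l (some i) = b + 1 + i` for `n < b`, `a l j = (l + 1)^j`. -/
theorem goodExpL_exists {n q b : ℕ} (hb : n < b) :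
    GoodExpL n q b (fun _ i => i.elim b (fun i => b + 1 + (i : ℕ)))
      (fun (l : Fin ((q - 1) * 2 ^ q + 1)) (j : Fin q) => ((l : ℕ) + 1) ^ (j : ℕ)) := by
  have hmod : ∀ i : Option (Fin n), (i.elim b (fun i => b + 1 + (i : ℕ))) % b =
      i.elim 0 (fun i => 1 + (i : ℕ)) := by
    rintro (_ | i)
    · exact Nat.mod_self b
    · change (b + 1 + (i : ℕ)) % b = 1 + (i : ℕ)
      have h1 := i.2
      rw [add_assoc, Nat.add_mod_left, Nat.mod_eq_of_lt (by omega)]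
  refine ⟨?_, ?_, ?_⟩
  · rintro l (_ | i)
    · exact le_rfl
    · change b ≤ b + 1 + (i : ℕ)
      omega
  · intro l i j hij h1
    have h2 : (i.elim b (fun i => b + 1 + (i : ℕ))) % b =
      (j.elim b (fun i => b + 1 + (i : ℕ))) % b := h1
    rw [hmod, hmod] at h2
    apply hij
    rcases i with _ | i <;> rcases j with _ | j
    · rfl
    · change 0 = 1 + (j : ℕ) at h2
      omega
    · change 1 + (i : ℕ) = 0 at h2
      omega
    · change 1 + (i : ℕ) = 1 + (j : ℕ) at h2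
      have h3 : i = j := Fin.ext (by omega)
      rw [h3]
  · exact (goodExp_vandermonde (α := Empty) q 1 (fun x => x.elim) (fun x => x.elim)
      (fun x => x.elim)).2.2

/-- the families of scalings -/
theorem spread_familyL {n q D b k : ℕ} (hk : 1 ≤ k)
    {e : Fin ((q - 1) * 2 ^ q + 1) → Option (Fin n) → ℕ} {a : Fin ((q - 1) * 2 ^ q + 1) → Fin q → ℕ}
    (hea : GoodExpL n q b e a)
    (h : ∀ l : Fin ((q - 1) * 2 ^ q + 1), ¬ Full (D + ((q - 1) * 2 ^ q + 1)) (k + l)) :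
    SpreadL n q D b
      (fun i => ∏ l : Fin ((q - 1) * 2 ^ q + 1), (k + (l : ℕ)) ^ e l i)
      (fun j => ∏ l : Fin ((q - 1) * 2 ^ q + 1), (k + (l : ℕ)) ^ a l j) := by
  refine ⟨fun j => Finset.prod_ne_zero_iff.2 fun l _ => pow_ne_zero _ (by omega), ?_⟩
  unfold Full at h
  push Not at h
  choose p hp hpD hp1 hp2 using h
  have hf : ∀ (a : Fin ((q - 1) * 2 ^ q + 1) → ℕ) (l : Fin ((q - 1) * 2 ^ q + 1)),
      (∏ l' : Fin ((q - 1) * 2 ^ q + 1), (k + (l' : ℕ)) ^ a l').factorization (p l) = a l :=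
    fun a l => fac_prod (hp l) hk (by have := hpD l; omega) a l (hp1 l) (hp2 l)
  refine ⟨p, fun l => ⟨hp l, by have := hpD l; omega⟩, ?_, ?_, ?_⟩
  · intro l i
    rw [hf (fun l => e l i) l]
    exact hea.1 l i
  · intro l i j hij
    rw [hf (fun l => e l i) l, hf (fun l => e l j) l]
    exact hea.2.1 l i j hij
  · intro I hI β hβ
    refine hea.2.2 I hI β fun l hl => ?_
    rw [← hβ l hl]
    refine Finset.sum_congr rfl fun j _ => ?_
    rw [hf (fun l => a l j) l]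

/-- the exceptions in the families -/
theorem family_countL (n q D : ℕ) : ∃ C : ℝ, ∀ (b : ℕ)
    (e : Fin ((q - 1) * 2 ^ q + 1) → Option (Fin n) → ℕ) (a : Fin ((q - 1) * 2 ^ q + 1) → Fin q → ℕ),
    GoodExpL n q b e a → ∀ H : ℕ,
    (Set.ncard {k : ℕ | 1 ≤ k ∧ k ≤ H ∧ ¬ SpreadL n q D b
      (fun i : Option (Fin n) => ∏ l : Fin ((q - 1) * 2 ^ q + 1), (k + (l : ℕ)) ^ e l i)
      (fun j => ∏ l : Fin ((q - 1) * 2 ^ q + 1), (k + (l : ℕ)) ^ a l j)} : ℝ) ≤
      C * √H := by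
  classical
  set L := (q - 1) * 2 ^ q + 1 with hL
  obtain ⟨C, hC0, hC⟩ := full_count (D + L)
  refine ⟨L * (C * √(1 + L)), fun b e a hea H => ?_⟩
  rcases Nat.eq_zero_or_pos H with rfl | hH
  · have h1 : {k : ℕ | 1 ≤ k ∧ k ≤ 0 ∧ ¬ SpreadL n q D b
      (fun i : Option (Fin n) => ∏ l : Fin L, (k + (l : ℕ)) ^ e l i)
      (fun j => ∏ l : Fin L, (k + (l : ℕ)) ^ a l j)} = ∅ := by
      ext k
      simp only [Set.mem_ofPred_eq, Set.mem_empty_iff_false, iff_false]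
      rintro ⟨h1, h2, -⟩
      omega
    rw [h1, Set.ncard_empty, Nat.cast_zero, Real.sqrt_zero, mul_zero]
  let E : Fin L → Set ℕ := fun l => {k : ℕ | 1 ≤ k ∧ k ≤ H ∧ Full (D + L) (k + l)}
  have hfin : ∀ l, (E l).Finite := fun l =>
    (Set.finite_Icc 1 H).subset fun k hk => ⟨hk.1, hk.2.1⟩
  have hsub : {k : ℕ | 1 ≤ k ∧ k ≤ H ∧ ¬ SpreadL n q D b
      (fun i : Option (Fin n) => ∏ l : Fin L, (k + (l : ℕ)) ^ e l i)
      (fun j => ∏ l : Fin L, (k + (l : ℕ)) ^ a l j)} ⊆ ⋃ l, E l := by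
    rintro k ⟨hk1, hkH, hk⟩
    rw [Set.mem_iUnion]
    by_contra hcon
    push Not at hcon
    exact hk (spread_familyL hk1 hea fun l hl => hcon l ⟨hk1, hkH, hl⟩)
  have h1 : Set.ncard (⋃ l, E l) ≤ ∑ l, (E l).ncard := Set.ncard_iUnion_le_of_fintype _
  have h2 : ∀ l, ((E l).ncard : ℝ) ≤ C * √(1 + L) * √H := by
    intro l
    have h3 : (E l).ncard ≤ Set.ncard {n : ℕ | 1 ≤ n ∧ n ≤ H + L ∧ Full (D + L) n} := by
      refine Set.ncard_le_ncard_of_injOn (fun k => k + (l : ℕ)) ?_ ?_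
        ((Set.finite_Icc 1 (H + L)).subset fun k hk => ⟨hk.1, hk.2.1⟩)
      · rintro k ⟨hk1, hkH, hk⟩
        have := l.2
        exact ⟨by omega, by omega, hk⟩
      · intro x _ y _ hxy
        exact Nat.add_right_cancel hxy
    have h4 : ((E l).ncard : ℝ) ≤ C * √((H + L : ℕ) : ℝ) :=
      le_trans (by exact_mod_cast h3) (hC (H + L))
    refine h4.trans ?_
    rw [mul_assoc]
    refine mul_le_mul_of_nonneg_left ?_ hC0
    rw [← Real.sqrt_mul (by positivity)]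
    refine Real.sqrt_le_sqrt ?_
    push_cast
    have h5 : (1 : ℝ) ≤ H := by exact_mod_cast hH
    have h6 : (0 : ℝ) ≤ L := Nat.cast_nonneg L
    nlinarith
  calc (Set.ncard {k : ℕ | 1 ≤ k ∧ k ≤ H ∧ ¬ SpreadL n q D b
      (fun i : Option (Fin n) => ∏ l : Fin L, (k + (l : ℕ)) ^ e l i)
      (fun j => ∏ l : Fin L, (k + (l : ℕ)) ^ a l j)} : ℝ)
      ≤ ((⋃ l, E l).ncard : ℝ) := by
        exact_mod_cast Set.ncard_le_ncard hsub (Set.finite_iUnion hfin)
    _ ≤ ((∑ l, (E l).ncard : ℕ) : ℝ) := by exact_mod_cast h1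
    _ = ∑ l, ((E l).ncard : ℝ) := by push_cast; rfl
    _ ≤ ∑ _l : Fin L, C * √(1 + L) * √H := Finset.sum_le_sum fun l _ => h2 l
    _ = L * (C * √(1 + L)) * √H := by
      rw [Finset.sum_const, Finset.card_univ, Fintype.card_fin, nsmul_eq_mul]
      ring

end Pool.Agent.W282.LF
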