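import Pool.Agent.W282.LF.Main

/-!
Project LF (helper282): relations between the points of the Legendre curve at one place.
-/

open MvPolynomial Function

namespace Pool.Agent.W282.LF

open WeierstrassCurve WeierstrassCurve.Affine Pool.Agent.W466.EP Pool.Agent.W466.ZC

theorem pow_inj_lt {Γ₀ : Type*} [LinearOrderedCommGroupWithZero Γ₀] {π : Γ₀} (h0 : 0 < π)
    (h1 : π < 1) {a b : ℕ} (h : π ^ a = π ^ b) : a = b :=
  pow_right_injective₀ h0 h1.ne h

/-- No relations with integral coefficients between points near the origin. -/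
theorem relZ (V : ValuationSubring ℂ) (p : ℕ) (hpp : p.Prime) (hp : (p : ℂ) ∈ V.nonunits)
    (A B : ℂ) (hA : V.valuation A ≤ 1) (hB : V.valuation B ≤ 1)
    (n : ℕ) (P : Fin n → (crv A B).Point) (J : Finset (Fin n)) (β : ℕ) (hβ : 0 < β)
    (e : Fin n → ℕ) (s : V.ValueGroup) (hs : 0 < s) (h : ∀ i ∈ J, P i ≠ 0 ∧
      Fm V.valuation (P i) ∧ V.valuation (tt (P i)) ^ 4 < V.valuation (p : ℂ) ∧
      V.valuation (tt (P i)) ^ (2 * β) = s * V.valuation (p : ℂ) ^ e i)
    (hdist : ∀ i ∈ J, ∀ j ∈ J, i ≠ j → ¬ e i ≡ e j [MOD β])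
    (l : Fin n → ℤ) (hl : ∀ i, i ∉ J → l i = 0) (hne : l ≠ 0)
    (t : ℕ) (ht : 0 < t) : t • ∑ i, l i • P i ≠ 0 := by
  classical
  set v := V.valuation with hv
  have hp1 : v (p : ℂ) < 1 := by rwa [ValuationSubring.mem_nonunits_iff] at hp
  have hp0 : 0 < v (p : ℂ) := zero_lt_iff.2 ((map_ne_zero v).2 (Nat.cast_ne_zero.2 hpp.ne_zero))
  intro hrel
  let J' : Finset (Fin n) := Finset.univ.filter fun i => l i ≠ 0
  have hJ' : ∀ i ∈ J', i ∈ J ∧ l i ≠ 0 := by
    intro i hi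
    have h1 := (Finset.mem_filter.1 hi).2
    refine ⟨?_, h1⟩
    by_contra h2
    exact h1 (hl i h2)
  have hJne : J'.Nonempty := by
    by_contra h1
    rw [Finset.not_nonempty_iff_eq_empty] at h1
    apply hne
    funext i
    by_contra h2
    have : i ∈ J' := Finset.mem_filter.2 ⟨Finset.mem_univ _, h2⟩
    rw [h1] at this
    exact absurd this (Finset.notMem_empty _)
  have hsum : t • ∑ i, l i • P i = ∑ i ∈ J', ((t : ℤ) * l i) • P i := by
    rw [Finset.smul_sum]
    rw [← Finset.sum_subset (Finset.subset_univ J')]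
    · refine Finset.sum_congr rfl fun i _ => ?_
      rw [mul_smul, natCast_zsmul]
    · intro i _ hi
      have h1 : l i = 0 := by
        by_contra h2
        exact hi (Finset.mem_filter.2 ⟨Finset.mem_univ _, h2⟩)
      rw [h1, zero_zsmul, smul_zero]
  have hval : ∀ i ∈ J', Fm v (((t : ℤ) * l i) • P i) ∧
      v (tt (((t : ℤ) * l i) • P i)) = v (((t : ℤ) * l i : ℤ) : ℂ) * v (tt (P i)) := by
    intro i hi
    obtain ⟨hiJ, hli⟩ := hJ' i hi
    obtain ⟨h1, h2, h3, -⟩ := h i hiJ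
    exact zsmul_val hA hB two_ne_zero hpp hp0 hp1 h2 h1 h3
      (mul_ne_zero (by exact_mod_cast ht.ne') hli)
  have hd : ∀ i ∈ J', ∀ j ∈ J', i ≠ j →
      v (tt (((t : ℤ) * l i) • P i)) ≠ v (tt (((t : ℤ) * l j) • P j)) := by
    intro i hi j hj hij heq
    obtain ⟨hiJ, hli⟩ := hJ' i hi
    obtain ⟨hjJ, hlj⟩ := hJ' j hj
    rw [(hval i hi).2, (hval j hj).2] at heq
    have hni : (t : ℤ) * l i ≠ 0 := mul_ne_zero (by exact_mod_cast ht.ne') hli
    have hnj : (t : ℤ) * l j ≠ 0 := mul_ne_zero (by exact_mod_cast ht.ne') hlj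
    rw [v_int_pow hpp hp1 hni, v_int_pow hpp hp1 hnj] at heq
    have h4 := congrArg (fun x => x ^ (2 * β)) heq
    simp only [mul_pow] at h4
    rw [(h i hiJ).2.2.2, (h j hjJ).2.2.2, ← pow_mul, ← pow_mul] at h4
    have h5 : v (p : ℂ) ^ (((t : ℤ) * l i).natAbs.factorization p * (2 * β) + e i) =
        v (p : ℂ) ^ (((t : ℤ) * l j).natAbs.factorization p * (2 * β) + e j) := by
      refine mul_left_cancel₀ hs.ne' ?_
      rw [pow_add, pow_add]
      calc s * (v (p : ℂ) ^ (((t : ℤ) * l i).natAbs.factorization p * (2 * β)) * v (p : ℂ) ^ e i)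
          = v (p : ℂ) ^ (((t : ℤ) * l i).natAbs.factorization p * (2 * β)) *
            (s * v (p : ℂ) ^ e i) := mul_left_comm _ _ _
        _ = v (p : ℂ) ^ (((t : ℤ) * l j).natAbs.factorization p * (2 * β)) *
            (s * v (p : ℂ) ^ e j) := h4
        _ = _ := mul_left_comm _ _ _
    have h6 := pow_inj_lt hp0 hp1 h5
    apply hdist i hiJ j hjJ hij
    have h7 : ∀ x : ℕ, x * (2 * β) + e i ≡ e i [MOD β] := fun x => by
      have : x * (2 * β) + e i = β * (2 * x) + e i := by ring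
      rw [this]
      exact Nat.mul_add_mod _ _ _
    have h8 : ∀ x : ℕ, x * (2 * β) + e j ≡ e j [MOD β] := fun x => by
      have : x * (2 * β) + e j = β * (2 * x) + e j := by ring
      rw [this]
      exact Nat.mul_add_mod _ _ _
    have h9 := h7 (((t : ℤ) * l i).natAbs.factorization p)
    rw [h6] at h9
    exact h9.symm.trans (h8 _)
  obtain ⟨-, i, hi, h1, -⟩ := sum_val hA hB two_ne_zero J' (fun i => ((t : ℤ) * l i) • P i)
    (fun i hi => (hval i hi).1) hd hJne
  obtain ⟨hiJ, hli⟩ := hJ' i hi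
  rw [← hsum, hrel, (hval i hi).2] at h1
  have h2 : v (tt (P i)) ≠ 0 := (map_ne_zero v).2 (tt_ne hA hB (h i hiJ).2.1 (h i hiJ).1)
  have h3 : v (((t : ℤ) * l i : ℤ) : ℂ) ≠ 0 := (map_ne_zero v).2
    (Int.cast_ne_zero.2 (mul_ne_zero (by exact_mod_cast ht.ne') hli))
  have h4 : v (tt (0 : (crv A B).Point)) = 0 := by
    change v (0 : ℂ) = 0
    exact map_zero v
  rw [h4] at h1
  exact mul_ne_zero h3 h2 h1.symm

/-- An integral relation with coefficients in a ring of rank two vanishing at few places. -/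
theorem exists_rel2 {n : ℕ} (M : Submodule ℤ (Fin n → ℤ × ℤ)) (F : Finset (Fin n))
    (h : 2 * F.card < Module.finrank ℤ M) : ∃ a ∈ M, a ≠ 0 ∧ ∀ i ∈ F, a i = 0 := by
  classical
  let φ : M →ₗ[ℤ] (F → ℤ × ℤ) :=
    (LinearMap.funLeft ℤ (ℤ × ℤ) (Subtype.val : F → Fin n)).comp M.subtype
  by_contra hcon
  push Not at hcon
  have hinj : Function.Injective φ := by
    rw [← LinearMap.ker_eq_bot, LinearMap.ker_eq_bot']
    intro a ha
    by_contra ha0
    obtain ⟨i, hi, hai⟩ := hcon a a.2 (fun h0 => ha0 (Subtype.ext h0))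
    exact hai (congrFun ha ⟨i, hi⟩)
  have h1 := LinearMap.finrank_le_finrank_of_injective hinj
  rw [Module.finrank_pi_fintype] at h1
  simp only [Module.finrank_prod, Module.finrank_self, Finset.sum_const, Finset.card_univ,
    Fintype.card_coe, smul_eq_mul] at h1
  omega

/-- The `j`-invariant of the Legendre curve `y² = x (x - 1) (x - t)`. -/
noncomputable def jinv (t : ℂ) : ℂ := 256 * (t ^ 2 - t + 1) ^ 3 / (t ^ 2 * (t - 1) ^ 2)

section

variable {V : ValuationSubring ℂ} {p : ℕ}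

theorem v_small (hpp : p.Prime) (hp3 : 3 < p) (hp : (p : ℂ) ∈ V.nonunits) :
    V.valuation (256 : ℂ) = 1 ∧ V.valuation (3 : ℂ) = 1 ∧ V.valuation (27 : ℂ) = 1 := by
  have hp1 : V.valuation (p : ℂ) < 1 := by rwa [ValuationSubring.mem_nonunits_iff] at hp
  have h2 : Nat.Coprime p 2 := (Nat.coprime_primes hpp Nat.prime_two).2 (by omega)
  have h3 : Nat.Coprime p 3 := (Nat.coprime_primes hpp Nat.prime_three).2 (by omega)
  refine ⟨?_, ?_, ?_⟩
  · have h4 : Nat.Coprime p 256 := by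
      have : (256 : ℕ) = 2 ^ 8 := by norm_num
      rw [this]
      exact h2.pow_right 8
    have h5 := v_coprime (v := V.valuation) hp1 h4
    exact_mod_cast h5
  · have h5 := v_coprime (v := V.valuation) hp1 h3
    exact_mod_cast h5
  · have h4 : Nat.Coprime p 27 := by
      have : (27 : ℕ) = 3 ^ 3 := by norm_num
      rw [this]
      exact h3.pow_right 3
    have h5 := v_coprime (v := V.valuation) hp1 h4
    exact_mod_cast h5

/-- If the `j`-invariant is integral then the parameter is integral at `V`. -/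
theorem t_le (hpp : p.Prime) (hp3 : 3 < p) (hp : (p : ℂ) ∈ V.nonunits) {t : ℂ} (ht0 : t ≠ 0)
    (ht1 : t ≠ 1) (hj : IsIntegral ℤ (jinv t)) : V.valuation t ≤ 1 := by
  set v := V.valuation with hv
  by_contra hlt
  push Not at hlt
  have hjV : v (jinv t) ≤ 1 := by
    rw [ValuationSubring.valuation_le_one_iff]
    have h1 : IsIntegral V (jinv t) := hj.tower_top
    obtain ⟨z, hz⟩ := (IsIntegrallyClosed.isIntegral_iff (R := V) (K := ℂ)).1 h1
    rw [← hz]
    exact z.2
  have h1 : jinv t * (t ^ 2 * (t - 1) ^ 2) = 256 * (t ^ 2 - t + 1) ^ 3 := by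
    rw [jinv, div_mul_cancel₀]
    exact mul_ne_zero (pow_ne_zero _ ht0) (pow_ne_zero _ (sub_ne_zero.2 ht1))
  have h2 : v (t - 1) = v t := Valuation.map_sub_eq_of_lt_left _ (by rwa [map_one])
  have h0 : 0 < v t := zero_le.trans_lt hlt
  have h3 : v (t ^ 2 - t + 1) = v t ^ 2 := by
    have h4 : v t < v (t ^ 2) := by
      rw [map_pow, pow_two]
      calc v t = 1 * v t := (one_mul _).symm
        _ < v t * v t := by gcongr
    have h5 : v (t ^ 2 - t) = v (t ^ 2) := Valuation.map_sub_eq_of_lt_left _ h4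
    rw [Valuation.map_add_eq_of_lt_left _ (by rw [map_one, h5]; exact hlt.trans h4), h5, map_pow]
  have h4 := congrArg v h1
  rw [map_mul, map_mul, map_mul, map_pow, map_pow, map_pow, h2, h3, (v_small hpp hp3 hp).1, one_mul,
    ← pow_add, ← pow_mul] at h4
  have h5 : v t ^ (2 * 3) ≤ v t ^ (2 + 2) := by
    rw [← h4]
    exact mul_le_of_le_one_left' hjV
  have h6 : v t ^ (2 + 2) < v t ^ (2 * 3) := pow_lt_pow_right₀ hlt (by norm_num)
  exact absurd h5 (not_le.2 h6)

variable {n q β : ℕ} {c : Option (Fin n) → ℂ} {Nn : Option (Fin n) → ℕ}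

/-- The values of the scaling constants. -/
theorem v_c (hpp : p.Prime) (hp : (p : ℂ) ∈ V.nonunits) (hβ : 0 < β)
    (hc : ∀ i, c i ^ β = (Nn i : ℂ)) (he : ∀ i, β ≤ (Nn i).factorization p) (i : Option (Fin n)) :
    V.valuation (c i) ^ β = V.valuation (p : ℂ) ^ (Nn i).factorization p ∧
      V.valuation (c i) < 1 ∧ 0 < V.valuation (c i) ∧
      V.valuation (c i) ≤ V.valuation (p : ℂ) := by
  set v := V.valuation with hv
  have hp1 : v (p : ℂ) < 1 := by rwa [ValuationSubring.mem_nonunits_iff] at hp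
  have hp0 : 0 < v (p : ℂ) := zero_lt_iff.2 ((map_ne_zero v).2 (Nat.cast_ne_zero.2 hpp.ne_zero))
  have hN : Nn i ≠ 0 := by
    intro h0
    have h1 := he i
    rw [h0] at h1
    simp only [Nat.factorization_zero, Finsupp.coe_zero, Pi.zero_apply] at h1
    omega
  have h1 : v (c i) ^ β = v (p : ℂ) ^ (Nn i).factorization p := by
    rw [← map_pow, hc, v_nat_pow hpp hp1 hN]
  have h2 : v (c i) ^ β ≤ v (p : ℂ) ^ β := by
    rw [h1]
    exact pow_le_pow_of_le_one zero_le hp1.le (he i)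
  have h3 : v (c i) ≤ v (p : ℂ) := (pow_le_pow_iff_left₀ zero_le zero_le hβ.ne').1 h2
  refine ⟨h1, h3.trans_lt hp1, ?_, h3⟩
  rw [zero_lt_iff]
  intro h4
  rw [h4, zero_pow hβ.ne'] at h1
  exact (pow_pos hp0 _).ne h1

variable {d : Fin q → ℕ} {t : ℂ} {P : Fin n → (leg t).Point} {u : Fin q → ℂ}
  {F : Finset (Option (Fin n) ⊕ Fin q)}

/-- The bad points. -/
def badE (F : Finset (Option (Fin n) ⊕ Fin q)) : Finset (Fin n) :=
  Finset.univ.filter fun i => Sum.inl (some i) ∈ F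

theorem badE_card : (badE F).card ≤ F.toLeft.card := by
  classical
  refine Finset.card_le_card_of_injOn (fun i => some i) ?_ ?_
  · intro i hi
    exact Finset.mem_toLeft.2 (Finset.mem_filter.1 hi).2
  · intro i _ j _ h
    exact Option.some_injective _ h

theorem badE_card' (h : Sum.inl none ∈ F) : 1 + (badE F).card ≤ F.toLeft.card := by
  classical
  have h1 : insert none ((badE F).map ⟨some, Option.some_injective _⟩) ⊆ F.toLeft := by
    intro i hi
    rw [Finset.mem_insert, Finset.mem_map] at hi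
    rcases hi with rfl | ⟨j, hj, rfl⟩
    · exact Finset.mem_toLeft.2 h
    · exact Finset.mem_toLeft.2 (Finset.mem_filter.1 hj).2
  have h2 := Finset.card_le_card h1
  rw [Finset.card_insert_of_notMem (by
    rw [Finset.mem_map]
    rintro ⟨j, -, hj⟩
    exact absurd hj (Option.some_ne_none j)), Finset.card_map] at h2
  omega

/-- At a parameter with integral `j`-invariant the parameter is a bad coordinate. -/
theorem base_bad (hpp : p.Prime) (hp3 : 3 < p) (hβ : 0 < β) (hc : ∀ i, c i ^ β = (Nn i : ℂ))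
    (he : ∀ i, β ≤ (Nn i).factorization p) (ht0 : t ≠ 0) (ht1 : t ≠ 1)
    (hj : IsIntegral ℤ (jinv t)) (hPl : Place V p c d t P u F) : Sum.inl none ∈ F := by
  by_contra h
  have h1 := hPl.base h
  have h2 := t_le hpp hp3 hPl.nonunit ht0 ht1 hj
  have h3 := (v_c hpp hPl.nonunit hβ hc he none).2.1
  rw [map_mul] at h1
  have h4 : V.valuation (c none) * V.valuation t < 1 := (mul_le_of_le_one_right' h2).trans_lt h3
  exact h4.ne h1

/-- Local data of a point with a large coordinate. -/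
theorem near_of {A B : ℂ} (hA : V.valuation A ≤ 1) (hB : V.valuation B ≤ 1)
    (Q : (crv A B).Point) (hQ : Q ≠ 0) {g : V.ValueGroup} (hg : g < 1)
    (h : g * V.valuation (xx Q) = 1) : Fm V.valuation Q ∧ V.valuation (tt Q) ^ 2 = g := by
  rcases Q with _ | ⟨x, y, hn⟩
  · exact absurd rfl hQ
  change g * V.valuation x = 1 at h
  have hx : 1 < V.valuation x := by
    by_contra hlt
    push Not at hlt
    have h1 : g * V.valuation x < 1 := (mul_le_of_le_one_right' hlt).trans_lt hg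
    exact h1.ne h
  refine ⟨hx, ?_⟩
  obtain ⟨-, hx0, -, h2, -⟩ := loc hA hB (eqn hn) hx
  have h3 : V.valuation x ≠ 0 := (map_ne_zero _).2 hx0
  exact mul_right_cancel₀ h3 (h2.trans h.symm)

theorem legA_le (hpp : p.Prime) (hp3 : 3 < p) (hp : (p : ℂ) ∈ V.nonunits) {ℓ t : ℂ}
    (h1 : V.valuation ℓ ≤ 1) (h2 : V.valuation (ℓ * t) ≤ 1) :
    V.valuation (ℓ ^ 2 * legA t) ≤ 1 ∧ V.valuation (ℓ ^ 3 * legB t) ≤ 1 ∧
      V.valuation (ℓ * ((1 + t) / 3)) ≤ 1 := by
  have e1 : ℓ ^ 2 * legA t = -((ℓ * t) ^ 2 - ℓ * (ℓ * t) + ℓ ^ 2) / 3 := by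
    rw [legA]
    ring
  have e2 : ℓ ^ 3 * legB t = -((ℓ * t + ℓ) * (ℓ * t - 2 * ℓ) * (2 * (ℓ * t) - ℓ)) / 27 := by
    rw [legB]
    ring
  have e3 : ℓ * ((1 + t) / 3) = (ℓ + ℓ * t) / 3 := by ring
  have hℓ : ℓ ∈ V := (ValuationSubring.valuation_le_one_iff V _).1 h1
  have hℓt : ℓ * t ∈ V := (ValuationSubring.valuation_le_one_iff V _).1 h2
  have h2V : (2 : ℂ) ∈ V := ofNat_mem V 2
  obtain ⟨-, h3, h27⟩ := v_small hpp hp3 hp
  refine ⟨?_, ?_, ?_⟩
  · rw [e1, map_div₀, h3, div_one, ValuationSubring.valuation_le_one_iff]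
    exact neg_mem (add_mem (sub_mem (pow_mem hℓt 2) (mul_mem hℓ hℓt)) (pow_mem hℓ 2))
  · rw [e2, map_div₀, h27, div_one, ValuationSubring.valuation_le_one_iff]
    exact neg_mem (mul_mem (mul_mem (add_mem hℓt hℓ) (sub_mem hℓt (mul_mem h2V hℓ)))
      (sub_mem (mul_mem h2V hℓt) hℓ))
  · rw [e3, map_div₀, h3, div_one, ValuationSubring.valuation_le_one_iff]
    exact add_mem hℓ hℓt

/-- Integral relations between the points. -/
theorem boundZ (hISO : S_ISO) (hpp : p.Prime) (hp3 : 3 < p) (hβ : 0 < β)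
    (hc : ∀ i, c i ^ β = (Nn i : ℂ)) (he : ∀ i, β ≤ (Nn i).factorization p)
    (hee : ∀ i j, i ≠ j → ¬ (Nn i).factorization p ≡ (Nn j).factorization p [MOD β])
    (hPl : Place V p c d t P u F) (M : Submodule ℤ (Fin n → ℤ))
    (hM : ∀ r ∈ M, ∃ T : ℕ, 0 < T ∧ T • ∑ i, r i • P i = 0) :
    Module.finrank ℤ M ≤ (badE F).card := by
  classical
  by_contra hcon
  push Not at hcon
  obtain ⟨r, hr, hr0, hrF⟩ := exists_rel M (badE F) hcon
  obtain ⟨T, hT, hrel⟩ := hM r hr
  obtain ⟨ℓ, hℓ0, hℓ1, hℓt, hℓ⟩ := hPl.ell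
  obtain ⟨w, hw⟩ := IsAlgClosed.exists_pow_nat_eq ℓ (n := 2) (by norm_num)
  have hw0 : w ≠ 0 := by
    rintro rfl
    apply hℓ0
    rw [← hw, zero_pow two_ne_zero]
  obtain ⟨ψ, hψ⟩ := hISO ℂ two_ne_zero (legA t) (legB t) w hw0
  obtain ⟨hA, hB, h3⟩ := legA_le hpp hp3 hPl.nonunit hℓ1 hℓt
  have hA' : V.valuation (w ^ 4 * legA t) ≤ 1 := by
    have : w ^ 4 = ℓ ^ 2 := by rw [← hw]; ring
    rwa [this]
  have hB' : V.valuation (w ^ 6 * legB t) ≤ 1 := by
    have : w ^ 6 = ℓ ^ 3 := by rw [← hw]; ring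
    rwa [this]
  have hp1 : V.valuation (p : ℂ) < 1 := by
    have := hPl.nonunit
    rwa [ValuationSubring.mem_nonunits_iff] at this
  have hp0 : 0 < V.valuation (p : ℂ) :=
    zero_lt_iff.2 ((map_ne_zero _).2 (Nat.cast_ne_zero.2 hpp.ne_zero))
  have hkey : ∀ i ∈ (badE F)ᶜ, ψ (P i) ≠ 0 ∧ Fm V.valuation (ψ (P i)) ∧
      V.valuation (tt (ψ (P i))) ^ 2 = V.valuation (c (some i)) := by
    intro i hi
    have hi' : Sum.inl (some i) ∉ F := fun h =>
      Finset.mem_compl.1 hi (Finset.mem_filter.2 ⟨Finset.mem_univ _, h⟩)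
    obtain ⟨hP0, hPv⟩ := hℓ i hi'
    obtain ⟨hc1, hc2, hc3, hc4⟩ := v_c hpp hPl.nonunit hβ hc he (some i)
    have hx : V.valuation (c (some i)) * V.valuation (xx (ψ (P i))) = 1 ∧ ψ (P i) ≠ 0 := by
      generalize P i = Q at hP0 hPv
      rcases Q with _ | ⟨x, y, hn⟩
      · exact absurd rfl hP0
      obtain ⟨h', h4⟩ := hψ x y hn
      rw [h4]
      refine ⟨?_, fun h => by cases h⟩
      change V.valuation (c (some i)) * V.valuation (w ^ 2 * x) = 1
      change V.valuation (c (some i) * (ℓ * (x + (1 + t) / 3))) = 1 at hPv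
      rw [map_mul] at hPv
      have h5 : 1 < V.valuation (ℓ * (x + (1 + t) / 3)) := by
        by_contra hlt
        push Not at hlt
        exact ((mul_le_of_le_one_right' hlt).trans_lt hc2).ne hPv
      have h6 : w ^ 2 * x = ℓ * (x + (1 + t) / 3) - ℓ * ((1 + t) / 3) := by
        rw [hw]
        ring
      rw [h6, Valuation.map_sub_eq_of_lt_left _ (h3.trans_lt h5), hPv]
    obtain ⟨h5, h6⟩ := near_of hA' hB' (ψ (P i)) hx.2 hc2 hx.1
    exact ⟨hx.2, h5, h6⟩
  refine relZ V p hpp hPl.nonunit (w ^ 4 * legA t) (w ^ 6 * legB t) hA' hB' n (fun i => ψ (P i))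
    (badE F)ᶜ β hβ (fun i => (Nn (some i)).factorization p) 1 zero_lt_one ?_ ?_ r ?_ hr0 T hT ?_
  · intro i hi
    obtain ⟨h1, h2, h4⟩ := hkey i hi
    obtain ⟨hc1, hc2, hc3, hc4⟩ := v_c hpp hPl.nonunit hβ hc he (some i)
    refine ⟨h1, h2, ?_, ?_⟩
    · have h5 : V.valuation (tt (ψ (P i))) ^ 4 = V.valuation (c (some i)) ^ 2 := by
        rw [← h4, ← pow_mul]
      rw [h5]
      calc V.valuation (c (some i)) ^ 2 = V.valuation (c (some i)) * V.valuation (c (some i)) :=
            pow_two _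
        _ < 1 * V.valuation (c (some i)) := by gcongr
        _ = V.valuation (c (some i)) := one_mul _
        _ ≤ V.valuation (p : ℂ) := hc4
    · rw [pow_mul, h4, hc1, one_mul]
  · intro i _ j _ hij
    exact hee (some i) (some j) (fun h => hij (Option.some_injective _ h))
  · intro i hi
    rw [Finset.mem_compl, not_not] at hi
    exact hrF i hi
  · have h1 := congrArg ψ hrel
    rw [map_nsmul, map_sum, map_zero] at h1
    rw [← h1]
    congr 1
    refine Finset.sum_congr rfl fun i _ => ?_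
    rw [map_zsmul]

end

/-- Complex multiplication of the Legendre curve with parameter `t`: the `j`-invariant is integral
(this is a theorem for curves with complex multiplication), and `φ` is an endomorphism, given by
rational functions with algebraic coefficients, with `φ² = a φ + b`, `a² + 4 b < 0`. -/
structure CMLeg (t : ℂ) where
  int : IsIntegral ℤ (jinv t)
  φ : (leg t).Point →+ (leg t).Point
  a : ℤ
  b : ℤ
  sq : ∀ P, φ (φ P) = a • φ P + b • P
  neg : a ^ 2 + 4 * b < 0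
  F : Polynomial ℂ
  G : Polynomial ℂ
  H : Polynomial ℂ
  K : Polynomial ℂ
  ratl : IsRatl φ F G H K
  alg : ∀ Q ∈ ({F, G, H, K} : Set (Polynomial ℂ)), ∀ i, IsAlgebraic ℚ (Q.coeff i)

section

variable {V : ValuationSubring ℂ} {p : ℕ} {n q β : ℕ} {c : Option (Fin n) → ℂ}
  {Nn : Option (Fin n) → ℕ} {d : Fin q → ℕ} {t : ℂ} {P : Fin n → (leg t).Point} {u : Fin q → ℂ}
  {F : Finset (Option (Fin n) ⊕ Fin q)}

/-- Relations between the points with complex multiplication. -/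
theorem boundCM (hCMR : S_CMR) (hpp : p.Prime) (hp3 : 3 < p) (hβ : 0 < β)
    (hc : ∀ i, c i ^ β = (Nn i : ℂ)) (he : ∀ i, β ≤ (Nn i).factorization p)
    (hee : ∀ i j, i ≠ j → ¬ (Nn i).factorization p ≡ (Nn j).factorization p [MOD β])
    (ht0 : t ≠ 0) (ht1 : t ≠ 1) (cm : CMLeg t)
    (hPl : Place V p c d t P u F) (M : Submodule ℤ (Fin n → ℤ × ℤ))
    (hM : ∀ r ∈ M, ∃ T : ℕ, 0 < T ∧
      T • ∑ i, ((r i).1 • P i + (r i).2 • cm.φ (P i)) = 0) :
    (Module.finrank ℤ M + 1) / 2 ≤ (badE F).card := by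
  classical
  by_contra hcon
  push Not at hcon
  obtain ⟨r, hr, hr0, hrF⟩ := exists_rel2 M (badE F) (by omega)
  obtain ⟨T, hT, hrel⟩ := hM r hr
  obtain ⟨ℓ, hℓ0, hℓ1, hℓt, hℓ⟩ := hPl.ell
  have ht := t_le hpp hp3 hPl.nonunit ht0 ht1 cm.int
  obtain ⟨hA, hB, h3⟩ := legA_le hpp hp3 hPl.nonunit (ℓ := 1) (t := t) (by rw [map_one])
    (by rwa [one_mul])
  rw [one_pow, one_mul] at hA hB
  rw [one_mul] at h3
  set v := V.valuation with hv
  have hp1 : v (p : ℂ) < 1 := by
    have := hPl.nonunit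
    rwa [ValuationSubring.mem_nonunits_iff] at this
  have hp0 : 0 < v (p : ℂ) :=
    zero_lt_iff.2 ((map_ne_zero _).2 (Nat.cast_ne_zero.2 hpp.ne_zero))
  have hvℓ : 0 < v ℓ := zero_lt_iff.2 ((map_ne_zero _).2 hℓ0)
  have hkey : ∀ i ∈ (badE F)ᶜ, P i ≠ 0 ∧ Fm v (P i) ∧
      v (tt (P i)) ^ 2 = v (c (some i)) * v ℓ := by
    intro i hi
    have hi' : Sum.inl (some i) ∉ F := fun h =>
      Finset.mem_compl.1 hi (Finset.mem_filter.2 ⟨Finset.mem_univ _, h⟩)
    obtain ⟨hP0, hPv⟩ := hℓ i hi'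
    obtain ⟨hc1, hc2, hc3, hc4⟩ := v_c hpp hPl.nonunit hβ hc he (some i)
    have hg : v (c (some i)) * v ℓ < 1 := (mul_le_of_le_one_right' hℓ1).trans_lt hc2
    have hx : v (c (some i)) * v ℓ * v (xx (P i)) = 1 := by
      generalize P i = Q at hP0 hPv
      rcases Q with _ | ⟨x, y, hn⟩
      · exact absurd rfl hP0
      change v (c (some i)) * v ℓ * v x = 1
      change v (c (some i) * (ℓ * (x + (1 + t) / 3))) = 1 at hPv
      rw [map_mul, map_mul, ← mul_assoc] at hPv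
      have h5 : 1 < v (x + (1 + t) / 3) := by
        by_contra hlt
        push Not at hlt
        exact ((mul_le_of_le_one_right' hlt).trans_lt hg).ne hPv
      have h6 : x = (x + (1 + t) / 3) - (1 + t) / 3 := by ring
      rw [h6, Valuation.map_sub_eq_of_lt_left _ (h3.trans_lt h5), hPv]
    obtain ⟨h5, h6⟩ := near_of hA hB (P i) hP0 hg hx
    exact ⟨hP0, h5, h6⟩
  refine hCMR V p hpp hPl.nonunit (legA t) (legB t)
    ((ValuationSubring.valuation_le_one_iff V _).1 hA)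
    ((ValuationSubring.valuation_le_one_iff V _).1 hB) cm.φ cm.F cm.G cm.H cm.K cm.ratl cm.alg
    cm.a cm.b cm.sq cm.neg n P (badE F)ᶜ β hβ (fun i => (Nn (some i)).factorization p)
    (v ℓ ^ β) (pow_pos hvℓ _) ?_ ?_ (fun i => (r i).1) (fun i => (r i).2) ?_ ?_ T hT hrel
  · intro i hi
    obtain ⟨h1, h2, h4⟩ := hkey i hi
    obtain ⟨hc1, hc2, hc3, hc4⟩ := v_c hpp hPl.nonunit hβ hc he (some i)
    refine ⟨h1, h2, ?_, ?_⟩
    · have h5 : v (tt (P i)) ^ 4 = (v (c (some i)) * v ℓ) ^ 2 := by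
        rw [← h4, ← pow_mul]
      rw [h5]
      have h6 : v (c (some i)) * v ℓ ≤ v (c (some i)) := mul_le_of_le_one_right' hℓ1
      have h7 : 0 < v (c (some i)) * v ℓ := mul_pos hc3 hvℓ
      calc (v (c (some i)) * v ℓ) ^ 2 = (v (c (some i)) * v ℓ) * (v (c (some i)) * v ℓ) :=
            pow_two _
        _ < 1 * (v (c (some i)) * v ℓ) := by
            have := h6.trans_lt hc2
            gcongr
        _ = v (c (some i)) * v ℓ := one_mul _
        _ ≤ v (c (some i)) := h6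
        _ ≤ v (p : ℂ) := hc4
    · rw [pow_mul, h4, mul_pow, hc1, mul_comm]
  · intro i _ j _ hij
    exact hee (some i) (some j) (fun h => hij (Option.some_injective _ h))
  · intro i hi
    rw [Finset.mem_compl, not_not] at hi
    have h1 := hrF i hi
    exact ⟨congrArg Prod.fst h1, congrArg Prod.snd h1⟩
  · by_contra h
    push Not at h
    apply hr0
    funext i
    exact Prod.ext (h i).1 (h i).2

end

end Pool.Agent.W282.LF
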