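import Pool.Agent.W282.LF.Place

/-!
Project LF (helper282): the count of the relations, with the multiplicative part.
-/

open MvPolynomial Function

namespace Pool.Agent.W282.LF

open WeierstrassCurve WeierstrassCurve.Affine Pool.Agent.W466.EP Pool.Agent.W466.ZC

/-- The numbers `N i` (for the parameter of the Legendre curve, `i = none`, and the points) and `d j`
(for the multiplicative coordinates) are spread out above `D`: there are `(q - 1) 2^q + 1` primes
larger than `D` at which the exponents of the `N i` are at least `β` and pairwise incongruent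
modulo `β`, and the exponent vectors of `d` at any `q` of these primes are linearly independent. -/
def SpreadL (n q D β : ℕ) (N : Option (Fin n) → ℕ) (d : Fin q → ℕ) : Prop :=
  (∀ j, d j ≠ 0) ∧ ∃ p : Fin ((q - 1) * 2 ^ q + 1) → ℕ,
    (∀ l, (p l).Prime ∧ D < p l) ∧
    (∀ l i, β ≤ (N i).factorization (p l)) ∧
    (∀ l i j, i ≠ j → ¬ (N i).factorization (p l) ≡ (N j).factorization (p l) [MOD β]) ∧
    ∀ I : Finset (Fin ((q - 1) * 2 ^ q + 1)), I.card = q → ∀ γ : Fin q → ℤ,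
      (∀ l ∈ I, ∑ j, γ j * ((d j).factorization (p l) : ℤ) = 0) → γ = 0

/-- A multiplicative relation at one place. -/
theorem tor_one {q : ℕ} {V : ValuationSubring ℂ} {p : ℕ} (hpp : p.Prime)
    (hp : (p : ℂ) ∈ V.nonunits) {d : Fin q → ℕ} (hd : ∀ j, d j ≠ 0) {u : Fin q → ℂ}
    (J : Finset (Fin q)) (hu : ∀ j ∈ J, V.valuation ((d j : ℂ) * u j) = 1) (r : Fin q → ℤ)
    (hr : ∀ j, j ∉ J → r j = 0) (h : V.valuation (∏ j, u j ^ r j) = 1) :
    ∑ j, r j * ((d j).factorization p : ℤ) = 0 := by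
  set v := V.valuation with hv
  have hp1 : v (p : ℂ) < 1 := by rwa [ValuationSubring.mem_nonunits_iff] at hp
  have hp0 : v (p : ℂ) ≠ 0 := (map_ne_zero v).2 (Nat.cast_ne_zero.2 hpp.ne_zero)
  have h1 : ∀ j, v (u j ^ r j) = v (p : ℂ) ^ (-(r j * ((d j).factorization p : ℤ))) := by
    intro j
    by_cases hj : j ∈ J
    · have h2 := hu j hj
      rw [map_mul, v_nat_pow hpp hp1 (hd j)] at h2
      have h3 : v (u j) = v (p : ℂ) ^ (-((d j).factorization p : ℤ)) := by
        rw [zpow_neg, zpow_natCast]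
        exact eq_inv_of_mul_eq_one_right h2
      rw [map_zpow₀, h3, ← zpow_mul]
      congr 1
      ring
    · rw [hr j hj, zpow_zero, map_one, zero_mul, neg_zero, zpow_zero]
  rw [map_prod] at h
  have h2 : ∏ j, v (u j ^ r j) = v (p : ℂ) ^ (∑ j, -(r j * ((d j).factorization p : ℤ))) := by
    rw [Finset.prod_congr rfl fun j _ => h1 j]
    have h4 : ∀ s : Finset (Fin q), ∏ j ∈ s, v (p : ℂ) ^ (-(r j * ((d j).factorization p : ℤ))) =
        v (p : ℂ) ^ (∑ j ∈ s, -(r j * ((d j).factorization p : ℤ))) := by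
      intro s
      classical
      induction s using Finset.induction_on with
      | empty => simp
      | insert a s ha ih => rw [Finset.prod_insert ha, Finset.sum_insert ha, ih, zpow_add₀ hp0]
    exact h4 Finset.univ
  rw [h2, Finset.sum_neg_distrib] at h
  have hpos : 0 < v (p : ℂ) := zero_lt_iff.2 hp0
  have h5 : ∀ z : ℤ, v (p : ℂ) ^ z = 1 → z = 0 := by
    intro z hz
    rcases lt_trichotomy z 0 with h6 | h6 | h6
    · obtain ⟨n, hn⟩ := Int.exists_eq_neg_ofNat h6.le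
      rw [hn, zpow_neg, inv_eq_one, zpow_natCast] at hz
      have h7 : n ≠ 0 := by rintro rfl; omega
      exact absurd hz (pow_lt_one₀ hpos.le hp1 h7).ne
    · exact h6
    · obtain ⟨n, hn⟩ := Int.eq_ofNat_of_zero_le h6.le
      rw [hn, zpow_natCast] at hz
      have h7 : n ≠ 0 := by rintro rfl; omega
      exact absurd hz (pow_lt_one₀ hpos.le hp1 h7).ne
  have h6 := h5 _ h
  linarith

section

variable {k : Type} [Field k] [Algebra k ℂ] {κ : Type*} {N n q m : ℕ}

theorem mainT (hTR : S_TR) [IsAlgClosed k] [CharZero k]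
    (G : κ → MvPolynomial (Fin (N + 1)) k)
    (hG : ∀ i, ∃ e, (G i).IsHomogeneous e)
    (a b : Option (Fin n) ⊕ Fin q → MvPolynomial (Fin (N + 1)) k)
    (db : Option (Fin n) ⊕ Fin q → ℕ) (hb : ∀ i, (b i).IsHomogeneous (db i))
    (ha0 : (a (Sum.inl none)).IsHomogeneous (db (Sum.inl none)))
    (haE : ∀ i, (a (Sum.inl (some i))).IsHomogeneous
      (db (Sum.inl none) + db (Sum.inl (some i))))
    (haT : ∀ j, (a (Sum.inr j)).IsHomogeneous (db (Sum.inr j)))
    (hdis : ∀ I : Finset ((Option (Fin n) ⊕ Fin q) ⊕ Fin (N + 1)), I.card = m + 1 →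
      ∀ y : Fin (N + 1) → ℂ, (∀ i, aeval y (G i) = 0) →
      (∀ i ∈ I, Sum.elim (fun s => aeval y (a s) * aeval y (b s)) y i = 0) → y = 0)
    {ι : Type*} [Finite ι] (Γ : ι → k) :
    ∃ D : ℕ, 3 ≤ D ∧ ∀ β : ℕ, 0 < β → ∀ (Nn : Option (Fin n) → ℕ) (d : Fin q → ℕ),
      SpreadL n q D β Nn d → ∀ c : Option (Fin n) → ℂ, (∀ i, c i ^ β = (Nn i : ℂ)) →
      ∀ (t : ℂ) (P : Fin n → (leg t).Point) (u : Fin q → ℂ) (y : Fin (N + 1) → ℂ)
        (_ : Over G a b c d t P u y) (cE : ℕ)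
        (_ : ∀ (p : ℕ) (V : ValuationSubring ℂ) (F : Finset (Option (Fin n) ⊕ Fin q)),
          p.Prime → D < p → (∀ i, β ≤ (Nn i).factorization p) →
          (∀ i j, i ≠ j → ¬ (Nn i).factorization p ≡ (Nn j).factorization p [MOD β]) →
          Place V p c d t P u F → cE ≤ F.toLeft.card)
        (M₂ : Submodule ℤ (Fin q → ℤ))
        (_ : ∀ r ∈ M₂, ∀ V : ValuationSubring ℂ, (∀ i, algebraMap k ℂ (Γ i) ∈ V) →
          V.valuation (∏ j, u j ^ r j) = 1)
        (S : Finset (Option (Fin n) ⊕ Fin q)) (_ : AlgebraicIndependent k fun s : S => co t P u s),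
        S.card + cE + Module.finrank ℤ M₂ ≤ m := by
  classical
  obtain ⟨D, hD⟩ := place (m := m) hTR G hG a b db hb ha0 haE haT hdis Γ
  refine ⟨max D 3, le_max_right _ _, ?_⟩
  intro β hβ Nn d hsp c hc t P u y hy cE hE M₂ hM₂ S hS
  obtain ⟨hd0, p, hp, hpe, hpee, hpd⟩ := hsp
  by_contra hcon
  push Not at hcon
  have hNn0 : ∀ i, Nn i ≠ 0 := by
    intro i h0
    have h1 := hpe ⟨0, Nat.succ_pos _⟩ i
    rw [h0] at h1
    simp only [Nat.factorization_zero, Finsupp.coe_zero, Pi.zero_apply] at h1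
    omega
  have hc0 : ∀ i, c i ≠ 0 := by
    intro i h0
    have h1 := hc i
    rw [h0, zero_pow hβ.ne'] at h1
    exact hNn0 i (by exact_mod_cast h1.symm)
  have hck : ∀ i, c i ≠ 0 ∧ ∃ w : k, algebraMap k ℂ w = c i := fun i =>
    ⟨hc0 i, exists_alg (Nn i : k) hβ (by rw [map_natCast]; exact hc i)⟩
  -- fixed relations
  have hβ' : ∀ J : Finset (Fin q), ∃ γ : Fin q → ℤ, γ ∈ M₂ ∧ (∀ j, j ∉ J → γ j = 0) ∧
      ((∃ r ∈ M₂, r ≠ 0 ∧ ∀ j, j ∉ J → r j = 0) → γ ≠ 0) := by
    intro J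
    by_cases h : ∃ r ∈ M₂, r ≠ 0 ∧ ∀ j, j ∉ J → r j = 0
    · obtain ⟨r, h1, h2, h3⟩ := h
      exact ⟨r, h1, h3, fun _ => h2⟩
    · exact ⟨0, M₂.zero_mem, fun _ _ => rfl, fun h1 => absurd h1 h⟩
  choose γ hγM hγJ hγ0 using hβ'
  have hone : ∀ l, ∃ J : Finset (Fin q), γ J ≠ 0 ∧
      ∑ j, γ J j * ((d j).factorization (p l) : ℤ) = 0 := by
    intro l
    obtain ⟨hpp, hpD⟩ := hp l
    have hp0C : ((p l : ℕ) : ℂ) ≠ 0 := by exact_mod_cast hpp.ne_zero
    obtain ⟨V, F, hVΓ, hPl, hFS⟩ := hD (p l) hpp (lt_of_le_of_lt (le_max_left _ _) hpD) c d hck hd0 hp0C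
      (by
        intro V _
        have h1 : V.valuation (c none) ^ β ≤ 1 := by
          rw [← map_pow, hc]
          exact v_nat _ _
        exact (pow_le_one_iff_of_nonneg zero_le hβ.ne').1 h1) t P u y hy S hS
    have h1 := hE (p l) V F hpp hpD (hpe l) (hpee l) hPl
    have h2 : F.toLeft.card + F.toRight.card = F.card := Finset.card_toLeft_add_card_toRight
    have hlt2 : F.toRight.card < Module.finrank ℤ M₂ := by omega
    obtain ⟨r, hr, hr0, hrF⟩ := exists_rel M₂ F.toRight hlt2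
    refine ⟨F.toRightᶜ, ?_, ?_⟩
    · refine hγ0 _ ⟨r, hr, hr0, fun j hj => ?_⟩
      rw [Finset.mem_compl, not_not] at hj
      exact hrF j hj
    · refine tor_one hpp hPl.nonunit hd0 (u := u) F.toRightᶜ ?_ _ (hγJ _)
        (hM₂ _ (hγM _) V hVΓ)
      intro j hj
      rw [Finset.mem_compl, Finset.mem_toRight] at hj
      exact hPl.tor j hj
  choose Jf hJf1 hJf2 using hone
  obtain ⟨J, -, hJ⟩ := Finset.exists_lt_card_fiber_of_mul_lt_card_of_maps_to
    (s := (Finset.univ : Finset (Fin ((q - 1) * 2 ^ q + 1))))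
    (t := (Finset.univ : Finset (Finset (Fin q)))) (f := Jf) (n := q - 1)
    (fun _ _ => Finset.mem_univ _) (by
      rw [Finset.card_univ, Finset.card_univ, Fintype.card_finset, Fintype.card_fin,
        Fintype.card_fin, mul_comm]
      omega)
  have hJq : q ≤ (Finset.univ.filter fun l => Jf l = J).card := by omega
  obtain ⟨I, hIJ, hIq⟩ := Finset.exists_subset_card_eq hJq
  have hne : (Finset.univ.filter fun l => Jf l = J).Nonempty := by
    rw [← Finset.card_pos]
    omega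
  obtain ⟨l, hl⟩ := hne
  have h1 := hJf1 l
  rw [(Finset.mem_filter.1 hl).2] at h1
  apply h1
  refine hpd I hIq (γ J) fun l' hl' => ?_
  have h2 := hJf2 l'
  rwa [(Finset.mem_filter.1 (hIJ hl')).2] at h2

end

end Pool.Agent.W282.LF
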