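import Pool.Agent.W282.LF.Stm
import Pool.Agent.W466.EH

/-!
Project LF (helper282): valuation rings adapted to a point of the family.
-/

open MvPolynomial Function

namespace Pool.Agent.W282.LF

open WeierstrassCurve WeierstrassCurve.Affine Pool.Agent.W466.EP Pool.Agent.W466.ZC

/-- The coefficients of the Weierstrass form of the Legendre curve `y² = x (x - 1) (x - t)`. -/
noncomputable def legA (t : ℂ) : ℂ := -(t ^ 2 - t + 1) / 3

/-- See `legA`. -/
noncomputable def legB (t : ℂ) : ℂ := -((t + 1) * (t - 2) * (2 * t - 1)) / 27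

/-- The Legendre curve `y² = x (x - 1) (x - t)`, in the coordinate `x - (1 + t) / 3`. -/
noncomputable abbrev leg (t : ℂ) : WeierstrassCurve.Affine ℂ := crv (legA t) (legB t)

/-- The coordinate `x` of a point of the Legendre curve `y² = x (x - 1) (x - t)`, and `0` at the
origin. -/
noncomputable def lx {t : ℂ} : (leg t).Point → ℂ
  | .zero => 0
  | .some x _ _ => x + (1 + t) / 3

/-- The coordinates of a point of the fibre power times the torus. -/
noncomputable def co {n q : ℕ} (t : ℂ) (P : Fin n → (leg t).Point) (u : Fin q → ℂ) :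
    Option (Fin n) ⊕ Fin q → ℂ :=
  Sum.elim (fun i => i.elim t (fun i => lx (P i))) u

/-- A valuation ring above `p` adapted to the point `(t, P, u)`, with the set `F` of bad
coordinates. -/
structure Place {n q : ℕ} (V : ValuationSubring ℂ) (p : ℕ) (c : Option (Fin n) → ℂ)
    (d : Fin q → ℕ) (t : ℂ) (P : Fin n → (leg t).Point) (u : Fin q → ℂ)
    (F : Finset (Option (Fin n) ⊕ Fin q)) : Prop where
  nonunit : (p : ℂ) ∈ V.nonunits
  tor : ∀ j, Sum.inr j ∉ F → V.valuation ((d j : ℂ) * u j) = 1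
  base : Sum.inl none ∉ F → V.valuation (c none * t) = 1
  ell : ∃ ℓ : ℂ, ℓ ≠ 0 ∧ V.valuation ℓ ≤ 1 ∧ V.valuation (ℓ * t) ≤ 1 ∧
    ∀ i, Sum.inl (some i) ∉ F → P i ≠ 0 ∧ V.valuation (c (some i) * (ℓ * lx (P i))) = 1

/-- A quotient of forms of the same degree is a rational function of the quotients of the
coordinates. -/
theorem quot_mem {k : Type} [Field k] [Algebra k ℂ] {N : ℕ} (y : Fin (N + 1) → ℂ)
    (j₀ : Fin (N + 1)) (hy : y j₀ ≠ 0) {a b : MvPolynomial (Fin (N + 1)) k} {d : ℕ}
    (ha : a.IsHomogeneous d) (hb : b.IsHomogeneous d) :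
    aeval y a / aeval y b ∈ IntermediateField.adjoin k (Set.range fun j => y j / y j₀) := by
  have hmem : ∀ P : MvPolynomial (Fin (N + 1)) k, aeval ((y j₀)⁻¹ • y) P ∈
      IntermediateField.adjoin k (Set.range fun j => y j / y j₀) := by
    intro P
    have h1 : aeval ((y j₀)⁻¹ • y) P ∈ Algebra.adjoin k (Set.range ((y j₀)⁻¹ • y)) := by
      rw [Algebra.adjoin_range_eq_range_aeval]
      exact ⟨P, rfl⟩
    refine IntermediateField.algebra_adjoin_le_adjoin k _ (Algebra.adjoin_mono ?_ h1)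
    rintro _ ⟨j, rfl⟩
    exact ⟨j, by
      rw [Pi.smul_apply, smul_eq_mul]
      exact div_eq_inv_mul _ _⟩
  have h2 : aeval y a / aeval y b = aeval ((y j₀)⁻¹ • y) a / aeval ((y j₀)⁻¹ • y) b := by
    rw [aeval_smul' ha, aeval_smul' hb, mul_div_mul_left _ _ (pow_ne_zero _ (inv_ne_zero hy))]
  rw [h2]
  exact div_mem (hmem a) (hmem b)

section

variable {k : Type} [Field k] [Algebra k ℂ] {κ : Type*} {N n q m : ℕ}

/-- The equations between the point `(t, P, u)` of the fibre power times the torus and the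
point `y` of the projective set. -/
structure Over (G : κ → MvPolynomial (Fin (N + 1)) k)
    (a b : Option (Fin n) ⊕ Fin q → MvPolynomial (Fin (N + 1)) k) (c : Option (Fin n) → ℂ)
    (d : Fin q → ℕ) (t : ℂ) (P : Fin n → (leg t).Point) (u : Fin q → ℂ)
    (y : Fin (N + 1) → ℂ) : Prop where
  ne : y ≠ 0
  eqs : ∀ i, aeval y (G i) = 0
  base_ne : aeval y (b (Sum.inl none)) ≠ 0
  base : c none * aeval y (b (Sum.inl none)) * t = aeval y (a (Sum.inl none))
  ell : ∀ i : Fin n, (P i = 0 ∧ aeval y (b (Sum.inl (some i))) = 0) ∨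
    (P i ≠ 0 ∧ aeval y (b (Sum.inl (some i))) ≠ 0 ∧
      c none * c (some i) * aeval y (b (Sum.inl none)) * aeval y (b (Sum.inl (some i))) *
        lx (P i) = aeval y (a (Sum.inl (some i))))
  tor : ∀ j : Fin q, aeval y (b (Sum.inr j)) ≠ 0 ∧
    (d j : ℂ) * aeval y (b (Sum.inr j)) * u j = aeval y (a (Sum.inr j))

theorem place (hTR : S_TR) [IsAlgClosed k] [CharZero k]
    (G : κ → MvPolynomial (Fin (N + 1)) k)
    (hG : ∀ i, ∃ e, (G i).IsHomogeneous e)
    (a b : Option (Fin n) ⊕ Fin q → MvPolynomial (Fin (N + 1)) k)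
    (db : Option (Fin n) ⊕ Fin q → ℕ) (hb : ∀ i, (b i).IsHomogeneous (db i))
    (ha0 : (a (Sum.inl none)).IsHomogeneous (db (Sum.inl none)))
    (haE : ∀ i, (a (Sum.inl (some i))).IsHomogeneous
      (db (Sum.inl none) + db (Sum.inl (some i))))
    (haT : ∀ j, (a (Sum.inr j)).IsHomogeneous (db (Sum.inr j)))
    (hdis : ∀ I : Finset ((Option (Fin n) ⊕ Fin q) ⊕ Fin (N + 1)), I.card = m + 1 →
      ∀ y : Fin (N + 1) → ℂ, (∀ i, aeval y (G i) = 0) →
      (∀ i ∈ I, Sum.elim (fun s => aeval y (a s) * aeval y (b s)) y i = 0) → y = 0)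
    {ι : Type*} [Finite ι] (Γ : ι → k) :
    ∃ D : ℕ, ∀ p : ℕ, p.Prime → D < p →
      ∀ (c : Option (Fin n) → ℂ) (d : Fin q → ℕ) (_ : ∀ i, c i ≠ 0 ∧ ∃ w : k, algebraMap k ℂ w = c i)
        (_ : ∀ j, d j ≠ 0) (_ : (p : ℂ) ≠ 0) (_ : ∀ V : ValuationSubring ℂ, (p : ℂ) ∈ V.nonunits →
          V.valuation (c none) ≤ 1)
        (t : ℂ) (P : Fin n → (leg t).Point) (u : Fin q → ℂ) (y : Fin (N + 1) → ℂ)
        (_ : Over G a b c d t P u y) (S : Finset (Option (Fin n) ⊕ Fin q))
        (_ : AlgebraicIndependent k fun s : S => co t P u s),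
      ∃ (V : ValuationSubring ℂ) (F : Finset (Option (Fin n) ⊕ Fin q)),
        (∀ i, algebraMap k ℂ (Γ i) ∈ V) ∧ Place V p c d t P u F ∧ F.card + S.card ≤ m := by
  classical
  let A' : (Option (Fin n) ⊕ Fin q) ⊕ Fin (N + 1) → MvPolynomial (Fin (N + 1)) k :=
    Sum.elim a X
  let B' : (Option (Fin n) ⊕ Fin q) ⊕ Fin (N + 1) → MvPolynomial (Fin (N + 1)) k :=
    Sum.elim b (fun _ => 1)
  obtain ⟨_, D, hD⟩ := goodE (m := m) G hG A' B' (by
    intro I hI y hyG hy
    refine hdis I hI y hyG fun i hi => ?_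
    have h1 := hy i hi
    rcases i with i | j
    · exact h1
    · change aeval y (X j : MvPolynomial (Fin (N + 1)) k) * aeval y (1 : MvPolynomial _ k) = 0 at h1
      rw [aeval_X, map_one, mul_one] at h1
      exact h1) Γ
  refine ⟨D, fun p hp hpD c d hc hd hp0 hc0 t P u y hy S hS => ?_⟩
  obtain ⟨j₀, hj₀⟩ : ∃ j, y j ≠ 0 := by
    by_contra h
    push Not at h
    exact hy.ne (funext h)
  have hkmem : ∀ w : k, algebraMap k ℂ w ∈
      IntermediateField.adjoin k (Set.range fun j => y j / y j₀) := fun w =>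
    IntermediateField.algebraMap_mem _ w
  have hcmem : ∀ i, c i ∈ IntermediateField.adjoin k (Set.range fun j => y j / y j₀) := by
    intro i
    obtain ⟨-, w, hw⟩ := hc i
    rw [← hw]
    exact hkmem w
  -- the coordinates are rational functions of the quotients
  have hco : ∀ s, co t P u s ∈ IntermediateField.adjoin k (Set.range fun j => y j / y j₀) := by
    intro s
    rcases s with (_ | i) | j
    · change t ∈ _
      have h1 : t = aeval y (a (Sum.inl none)) / aeval y (b (Sum.inl none)) / c none := by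
        rw [← hy.base]
        field_simp [hy.base_ne, (hc none).1]
      rw [h1]
      exact div_mem (quot_mem y j₀ hj₀ ha0 (hb _)) (hcmem none)
    · change lx (P i) ∈ _
      rcases hy.ell i with ⟨h1, -⟩ | ⟨-, h2, h3⟩
      · rw [h1]
        exact zero_mem _
      · have h1 : lx (P i) = aeval y (a (Sum.inl (some i))) /
            aeval y (b (Sum.inl none) * b (Sum.inl (some i))) / (c none * c (some i)) := by
          rw [← h3, map_mul]
          field_simp [hy.base_ne, (hc none).1, (hc (some i)).1, h2]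
        rw [h1]
        exact div_mem (quot_mem y j₀ hj₀ (haE i) ((hb _).mul (hb _)))
          (mul_mem (hcmem none) (hcmem (some i)))
    · change u j ∈ _
      obtain ⟨h2, h3⟩ := hy.tor j
      have hdj : (d j : ℂ) ≠ 0 := Nat.cast_ne_zero.2 (hd j)
      have h1 : u j = aeval y (a (Sum.inr j)) / aeval y (b (Sum.inr j)) / (d j : ℂ) := by
        rw [← h3]
        field_simp [h2, hdj]
      rw [h1]
      exact div_mem (quot_mem y j₀ hj₀ (haT j) (hb _)) (natCast_mem _ _)
  obtain ⟨S', hS'c, hS'⟩ := hTR k N y j₀ hj₀ S (fun s => co t P u s) hS (fun s => hco s)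
  have hS'card : S'.card = S.card := by rw [hS'c, Nat.card_eq_fintype_card, Fintype.card_coe]
  have hind := algInd_smul hS' (fun _ => ((p : k))⁻¹) (fun _ => by
    apply inv_ne_zero
    intro h
    apply hp0
    rw [← map_natCast (algebraMap k ℂ), h, map_zero])
  obtain ⟨V, hV, hVΓ, hVx, _, hVy⟩ := hD p hp hpD S' _ hind
  obtain ⟨c', hc', hab, hI⟩ := hVy y hy.ne hy.eqs
  set v := V.valuation with hv
  have hp1 : v (p : ℂ) < 1 := by rwa [ValuationSubring.mem_nonunits_iff] at hV
  let Ball : Finset ((Option (Fin n) ⊕ Fin q) ⊕ Fin (N + 1)) := Finset.univ.filter fun s =>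
    ¬ v (aeval (c' • y) (A' s) * aeval (c' • y) (B' s)) = 1
  have hBall : Ball.card ≤ m := by
    by_contra h
    push Not at h
    obtain ⟨I, hIE, hIc⟩ := Finset.exists_subset_card_eq (Nat.succ_le_of_lt h)
    obtain ⟨i, hi, h1⟩ := hI I hIc
    exact (Finset.mem_filter.1 (hIE hi)).2 h1
  let F : Finset (Option (Fin n) ⊕ Fin q) := Ball.toLeft
  have hS'sub : S' ⊆ Ball.toRight := by
    intro j hj
    rw [Finset.mem_toRight, Finset.mem_filter]
    refine ⟨Finset.mem_univ _, ?_⟩
    change ¬ v (aeval (c' • y) (X j : MvPolynomial (Fin (N + 1)) k) *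
      aeval (c' • y) (1 : MvPolynomial (Fin (N + 1)) k)) = 1
    rw [aeval_X, map_one, mul_one]
    have h1 := hVx ⟨j, hj⟩
    have h2 : v ((c' • y) j) = v (p : ℂ) * v ((c' • y) j₀) := by
      have h3 : (c' • y) j = (p : ℂ) * (algebraMap k ℂ (p : k)⁻¹ * (y j / y j₀)) * (c' • y) j₀ := by
        rw [map_inv₀, map_natCast, Pi.smul_apply, Pi.smul_apply, smul_eq_mul, smul_eq_mul]
        field_simp [hj₀, hp0]
      rw [h3, map_mul, map_mul]
      change v (p : ℂ) * v (algebraMap k ℂ (p : k)⁻¹ * (y j / y j₀)) * _ = _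
      have h4 : v (algebraMap k ℂ (p : k)⁻¹ * (y j / y j₀)) = 1 := h1
      rw [h4, mul_one]
    have h5 : v ((c' • y) j₀) ≤ 1 := by
      have h6 := (hab (Sum.inr j₀)).1
      change aeval (c' • y) (X j₀ : MvPolynomial (Fin (N + 1)) k) ∈ V at h6
      rw [aeval_X] at h6
      exact (ValuationSubring.valuation_le_one_iff V _).2 h6
    rw [h2]
    exact ((mul_le_of_le_one_right' h5).trans_lt hp1).ne
  have hFc : F.card + S.card ≤ m := by
    have h1 := Finset.card_le_card hS'sub
    have h2 : Ball.toLeft.card + Ball.toRight.card = Ball.card :=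
      Finset.card_toLeft_add_card_toRight
    change Ball.toLeft.card + S.card ≤ m
    omega
  have hgood : ∀ s, s ∉ F → v (aeval (c' • y) (a s)) = 1 ∧ v (aeval (c' • y) (b s)) = 1 := by
    intro s hs
    have h1 : v (aeval (c' • y) (a s) * aeval (c' • y) (b s)) = 1 := by
      by_contra h
      exact hs (Finset.mem_toLeft.2 (Finset.mem_filter.2 ⟨Finset.mem_univ _, h⟩))
    have ha1 := (ValuationSubring.valuation_le_one_iff V _).2 (hab (Sum.inl s)).1
    have hb1 := (ValuationSubring.valuation_le_one_iff V _).2 (hab (Sum.inl s)).2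
    change v (aeval (c' • y) (a s)) ≤ 1 at ha1
    change v (aeval (c' • y) (b s)) ≤ 1 at hb1
    rw [map_mul] at h1
    have ha2 : v (aeval (c' • y) (a s)) = 1 := by
      refine le_antisymm ha1 ?_
      by_contra hlt
      push Not at hlt
      have h2 : v (aeval (c' • y) (a s)) * v (aeval (c' • y) (b s)) < 1 :=
        (mul_le_of_le_one_right' hb1).trans_lt hlt
      rw [h1] at h2
      exact lt_irrefl _ h2
    exact ⟨ha2, by rwa [ha2, one_mul] at h1⟩
  have hc'd : ∀ d : ℕ, c' ^ d ≠ 0 := fun d => pow_ne_zero _ hc'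
  refine ⟨V, F, hVΓ, ⟨hV, ?_, ?_, ?_⟩, hFc⟩
  · intro j hj
    obtain ⟨h1, h2⟩ := hgood _ hj
    have h3 : (d j : ℂ) * u j * aeval (c' • y) (b (Sum.inr j)) =
        aeval (c' • y) (a (Sum.inr j)) := by
      rw [aeval_smul' (haT j), aeval_smul' (hb (Sum.inr j)), ← (hy.tor j).2]
      ring
    have h4 := congrArg v h3
    rw [map_mul, h2, h1, mul_one] at h4
    exact h4
  · intro h0
    obtain ⟨h1, h2⟩ := hgood _ h0
    have h3 : c none * t * aeval (c' • y) (b (Sum.inl none)) =
        aeval (c' • y) (a (Sum.inl none)) := by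
      rw [aeval_smul' ha0, aeval_smul' (hb (Sum.inl none)), ← hy.base]
      ring
    have h4 := congrArg v h3
    rw [map_mul, h2, h1, mul_one] at h4
    exact h4
  · refine ⟨c none * aeval (c' • y) (b (Sum.inl none)), ?_, ?_, ?_, ?_⟩
    · rw [aeval_smul' (hb (Sum.inl none))]
      exact mul_ne_zero (hc none).1 (mul_ne_zero (hc'd _) hy.base_ne)
    · rw [map_mul]
      exact mul_le_one' (hc0 V hV) ((ValuationSubring.valuation_le_one_iff V _).2 (hab (Sum.inl (Sum.inl none))).2)
    · have h3 : c none * aeval (c' • y) (b (Sum.inl none)) * t =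
          aeval (c' • y) (a (Sum.inl none)) := by
        rw [aeval_smul' ha0, aeval_smul' (hb (Sum.inl none)), ← hy.base]
        ring
      rw [h3]
      exact (ValuationSubring.valuation_le_one_iff V _).2 (hab (Sum.inl (Sum.inl none))).1
    · intro i hi
      obtain ⟨h1, h2⟩ := hgood _ hi
      rcases hy.ell i with ⟨-, h3⟩ | ⟨h3, h4, h5⟩
      · exfalso
        rw [aeval_smul' (hb (Sum.inl (some i))), h3, mul_zero, map_zero] at h2
        exact zero_ne_one h2
      · refine ⟨h3, ?_⟩
        have h6 : c (some i) * (c none * aeval (c' • y) (b (Sum.inl none)) * lx (P i)) *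
            aeval (c' • y) (b (Sum.inl (some i))) = aeval (c' • y) (a (Sum.inl (some i))) := by
          rw [aeval_smul' (haE i), aeval_smul' (hb (Sum.inl (some i))),
            aeval_smul' (hb (Sum.inl none)), ← h5, pow_add]
          ring
        have h7 := congrArg v h6
        rw [map_mul, h2, h1, mul_one] at h7
        exact h7

end

end Pool.Agent.W282.LF
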