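import Pool.Agent.W466.EG

/-!
Project LF (helper282): Zilber-Pink for scaled images of projective sets in the fibre powers of the
Legendre family times tori. Definitions and statements of the independent parts.
-/

open MvPolynomial

namespace Pool.Agent.W282.LF

open WeierstrassCurve WeierstrassCurve.Affine Pool.Agent.W466.EP

/-- The endomorphism `φ` of the curve `y² = x³ + A x + B` is given by
`φ (x, y) = (F x / G x, y · (H x / K x))`, for all but finitely many `x`, with a pole of the right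
order at infinity. -/
structure IsRatl {L : Type*} [Field L] [DecidableEq L] {A B : L}
    (φ : (crv A B).Point →+ (crv A B).Point) (F G H K : Polynomial L) : Prop where
  G0 : G ≠ 0
  H0 : H ≠ 0
  K0 : K ≠ 0
  degF : F.natDegree = G.natDegree + 1
  degH : H.natDegree = K.natDegree
  val : ∀ (x y : L) (h : (crv A B).Nonsingular x y), G.eval x ≠ 0 → K.eval x ≠ 0 →
    ∃ h', φ (.some x y h) = .some (F.eval x / G.eval x) (y * (H.eval x / K.eval x)) h'

/-- The Weierstrass curves `y² = x³ + A x + B` and `y² = x³ + u⁴ A x + u⁶ B` are isomorphic. -/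
def S_ISO : Prop := ∀ (L : Type) [Field L] [DecidableEq L] (_ : (2 : L) ≠ 0) (A B u : L)
  (_ : u ≠ 0), ∃ ψ : (crv A B).Point →+ (crv (u ^ 4 * A) (u ^ 6 * B)).Point,
    ∀ (x y : L) (h : (crv A B).Nonsingular x y),
      ∃ h', ψ (.some x y h) = .some (u ^ 2 * x) (u ^ 3 * y) h'

/-- Approximation of an endomorphism near the origin. -/
def S_ENDO : Prop := ∀ (L : Type) [Field L] [DecidableEq L] (Γ₀ : Type)
  [LinearOrderedCommGroupWithZero Γ₀] (v : Valuation L Γ₀) (π : Γ₀) (_ : 0 < π) (_ : π < 1)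
  (_ : (2 : L) ≠ 0) (A B : L) (_ : v A ≤ 1) (_ : v B ≤ 1)
  (φ : (crv A B).Point →+ (crv A B).Point) (F G H K : Polynomial L) (_ : IsRatl φ F G H K)
  (_ : ∃ M : ℕ, ∀ P ∈ ({F, G, H, K} : Set (Polynomial L)), ∀ i, P.coeff i ≠ 0 →
    π ^ M ≤ v (P.coeff i) ∧ v (P.coeff i) * π ^ M ≤ 1),
  ∃ M : ℕ, ∀ Q : (crv A B).Point, Fm v Q → v (tt Q) ≤ π ^ M → Fm v (φ Q) ∧
    v (tt (φ Q) - F.leadingCoeff * K.leadingCoeff / (G.leadingCoeff * H.leadingCoeff) * tt Q) *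
      π ^ M ≤ v (tt Q) ^ 3

/-- Values of the elements of an imaginary quadratic order. -/
def S_QUAD : Prop := ∀ (L : Type) [Field L] (Γ₀ : Type) [LinearOrderedCommGroupWithZero Γ₀]
  (v : Valuation L Γ₀) [CharZero L] (p : ℕ) (_ : p.Prime) (_ : v (p : L) < 1) (θ : L) (a b : ℤ)
  (_ : θ ^ 2 = a * θ + b) (_ : a ^ 2 + 4 * b < 0) (l k : ℤ) (_ : l ≠ 0 ∨ k ≠ 0),
  (l : L) + k * θ ≠ 0 ∧ ∃ j : ℕ, v ((l : L) + k * θ) ^ 2 = v (p : L) ^ j

/-- Values of algebraic numbers. -/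
def S_ALGV : Prop := ∀ (V : ValuationSubring ℂ) (p : ℕ) (_ : p.Prime) (_ : (p : ℂ) ∈ V.nonunits)
  (z : ℂ) (_ : IsAlgebraic ℚ z) (_ : z ≠ 0), ∃ M : ℕ, V.valuation (p : ℂ) ^ M ≤ V.valuation z ∧
    V.valuation z * V.valuation (p : ℂ) ^ M ≤ 1

/-- No relations between points near the origin with complex multiplication. -/
def S_CMR : Prop := ∀ (V : ValuationSubring ℂ) (p : ℕ) (_ : p.Prime) (_ : (p : ℂ) ∈ V.nonunits)
  (A B : ℂ) (_ : A ∈ V) (_ : B ∈ V) (φ : (crv A B).Point →+ (crv A B).Point)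
  (F G H K : Polynomial ℂ) (_ : IsRatl φ F G H K)
  (_ : ∀ P ∈ ({F, G, H, K} : Set (Polynomial ℂ)), ∀ i, IsAlgebraic ℚ (P.coeff i))
  (a b : ℤ) (_ : ∀ P, φ (φ P) = a • φ P + b • P) (_ : a ^ 2 + 4 * b < 0)
  (n : ℕ) (P : Fin n → (crv A B).Point) (J : Finset (Fin n)) (β : ℕ) (_ : 0 < β) (e : Fin n → ℕ)
  (s : V.ValueGroup) (_ : 0 < s) (_ : ∀ i ∈ J, P i ≠ 0 ∧ Fm V.valuation (P i) ∧
    V.valuation (tt (P i)) ^ 4 < V.valuation (p : ℂ) ∧
    V.valuation (tt (P i)) ^ (2 * β) = s * V.valuation (p : ℂ) ^ e i)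
  (_ : ∀ i ∈ J, ∀ j ∈ J, i ≠ j → ¬ e i ≡ e j [MOD β])
  (l k : Fin n → ℤ) (_ : ∀ i, i ∉ J → l i = 0 ∧ k i = 0) (_ : ∃ i, l i ≠ 0 ∨ k i ≠ 0)
  (t : ℕ) (_ : 0 < t), t • ∑ i, (l i • P i + k i • φ (P i)) ≠ 0

/-- Algebraically independent quotients of forms of equal degrees: as many of the quotients of the
homogeneous coordinates are algebraically independent. -/
def S_TR : Prop := ∀ (k : Type) [Field k] [Algebra k ℂ] (N : ℕ) (y : Fin (N + 1) → ℂ)
  (j₀ : Fin (N + 1)) (_ : y j₀ ≠ 0) (σ : Type) [Finite σ] (z : σ → ℂ)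
  (_ : AlgebraicIndependent k z)
  (_ : ∀ s, z s ∈ IntermediateField.adjoin k (Set.range fun j => y j / y j₀)),
  ∃ S : Finset (Fin (N + 1)), S.card = Nat.card σ ∧ AlgebraicIndependent k fun j : S => y j / y j₀

end Pool.Agent.W282.LF
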